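import Mathlib

set_option autoImplicit false

namespace Pool.Agent.Results.MP_e299be_co.IndexUnbounded

/-- A pattern is a finite word `p` over the variables `0, 1, 2, …`. `Matches m p u`: the word `u`
splits into consecutive blocks, one for each letter of `p`, all of length at least `m`, where equal
variables of `p` give equal blocks (the block of the variable `v` is `B v`). -/
def Matches {α : Type} (m : ℕ) (p : List ℕ) (u : List α) : Prop :=
  ∃ B : ℕ → List α, (∀ v ∈ p, m ≤ (B v).length) ∧ u = (p.map B).flatten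

/-- the factor `f i, f (i + 1), …, f (i + n - 1)` of the infinite sequence `f` -/
def factor {α : Type} (f : ℕ → α) (i n : ℕ) : List α := (List.range n).map fun t => f (i + t)

/-- no factor of the infinite sequence `f` matches `p` with blocks of length at least `m` -/
def Avoids {α : Type} (m : ℕ) (p : List ℕ) (f : ℕ → α) : Prop :=
  ∀ i n, ¬ Matches m p (factor f i n)

/-- `p` is avoidable: some infinite sequence over a finite alphabet avoids it -/
def Avoidable (p : List ℕ) : Prop := ∃ (k : ℕ) (f : ℕ → Fin k), Avoids 1 p f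

/-- `f` is a play of the game in which Player 1, who chooses `f 0, f 2, f 4, …`, follows the
strategy `σ` (a function of all the earlier moves) -/
def Follows {c : ℕ} (σ : List (Fin c) → Fin c) (f : ℕ → Fin c) : Prop :=
  ∀ i, f (2 * i) = σ (factor f 0 (2 * i))

/-- Player 1 has a winning strategy in the `c`-ary sequence game for the pattern `p` -/
def Player1Wins (c : ℕ) (p : List ℕ) : Prop :=
  ∃ σ : List (Fin c) → Fin c, ∀ f : ℕ → Fin c, Follows σ f → Avoids 2 p f

/-- the game-avoidability index (the infimum of the empty set is infinity) -/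
noncomputable def gameIndex (p : List ℕ) : ℕ∞ :=
  sInf {x : ℕ∞ | ∃ c : ℕ, 1 ≤ c ∧ Player1Wins c p ∧ x = c}

/-! ### the word `W` -/

/-- the avoiding word -/
def W (n : ℕ) : ℕ :=
  if h : n = 0 then 0 else 2 * (n % 8) + (W (n / 8) / 2 ^ (n % 4)) % 2
decreasing_by exact Nat.div_lt_self (Nat.pos_of_ne_zero h) (by norm_num)

lemma W_zero : W 0 = 0 := by
  rw [W]; simp

lemma W_eq (n : ℕ) : W n = 2 * (n % 8) + (W (n / 8) / 2 ^ (n % 4)) % 2 := by
  by_cases h : n = 0
  · subst h
    rw [W_zero]
    simp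
  · conv_lhs => rw [W]
    simp [h]

lemma W_lt (n : ℕ) : W n < 16 := by
  rw [W_eq]
  omega

lemma bits {a b : ℕ} (ha : a < 16) (hb : b < 16)
    (h : ∀ j < 4, (a / 2 ^ j) % 2 = (b / 2 ^ j) % 2) : a = b := by
  have h0 := h 0 (by norm_num)
  have h1 := h 1 (by norm_num)
  have h2 := h 2 (by norm_num)
  have h3 := h 3 (by norm_num)
  norm_num at h0 h1 h2 h3
  omega

lemma W_block (q j c : ℕ) (hc : c < 8) (hj : c % 4 = j) :
    W (8 * q + c) = 2 * c + (W q / 2 ^ j) % 2 := by
  rw [W_eq]
  have h1 : (8 * q + c) % 8 = c := by omega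
  have h2 : (8 * q + c) / 8 = q := by omega
  have h3 : (8 * q + c) % 4 = j := by omega
  rw [h1, h2, h3]

lemma winP : ∀ k n m : ℕ, (∀ i < 8 ^ k, W (n + i) = W (m + i)) → n ≡ m [MOD 8 ^ (k + 1)] := by
  intro k
  induction k with
  | zero =>
    intro n m h
    have h0 := h 0 (by norm_num)
    rw [add_zero, add_zero, W_eq n, W_eq m] at h0
    unfold Nat.ModEq
    rw [zero_add, pow_one]
    generalize W (n / 8) / 2 ^ (n % 4) = x at h0
    generalize W (m / 8) / 2 ^ (m % 4) = y at h0
    omega
  | succ k ih =>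
    intro n m h
    have hK : 0 < 8 ^ k := by positivity
    have hK1 : (8 : ℕ) ^ (k + 1) = 8 * 8 ^ k := by ring
    have hc : n % 8 = m % 8 := by
      have h0 := h 0 (by positivity)
      rw [add_zero, add_zero, W_eq n, W_eq m] at h0
      generalize W (n / 8) / 2 ^ (n % 4) = x at h0
      generalize W (m / 8) / 2 ^ (m % 4) = y at h0
      omega
    obtain ⟨q, hq⟩ : ∃ q, q = n / 8 := ⟨_, rfl⟩
    obtain ⟨q', hq'⟩ : ∃ q', q' = m / 8 := ⟨_, rfl⟩
    obtain ⟨c, hcn⟩ : ∃ c, c = n % 8 := ⟨_, rfl⟩
    have hn : n = 8 * q + c := by omega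
    have hm : m = 8 * q' + c := by omega
    have hc8 : c < 8 := by omega
    have key : q ≡ q' [MOD 8 ^ (k + 1)] := by
      by_cases h4 : c ≤ 4
      · apply ih
        intro i hi
        apply bits (W_lt _) (W_lt _)
        intro j hj
        have h1 := h (8 * i + 4 + j - c) (by omega)
        have e1 : n + (8 * i + 4 + j - c) = 8 * (q + i) + (4 + j) := by omega
        have e2 : m + (8 * i + 4 + j - c) = 8 * (q' + i) + (4 + j) := by omega
        rw [e1, e2, W_block (q + i) j (4 + j) (by omega) (by omega),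
          W_block (q' + i) j (4 + j) (by omega) (by omega)] at h1
        omega
      · apply Nat.ModEq.add_right_cancel' 1
        apply ih
        intro i hi
        apply bits (W_lt _) (W_lt _)
        intro j hj
        have h1 := h (8 * (1 + i) + j - c) (by omega)
        have e1 : n + (8 * (1 + i) + j - c) = 8 * (q + 1 + i) + j := by omega
        have e2 : m + (8 * (1 + i) + j - c) = 8 * (q' + 1 + i) + j := by omega
        rw [e1, e2, W_block (q + 1 + i) j j (by omega) (by omega),
          W_block (q' + 1 + i) j j (by omega) (by omega)] at h1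
        omega
    rw [hn, hm]
    have h2 : 8 * q ≡ 8 * q' [MOD 8 * 8 ^ (k + 1)] := Nat.ModEq.mul_left' 8 key
    have h3 : (8 : ℕ) ^ (k + 1 + 1) = 8 * 8 ^ (k + 1) := by ring
    rw [h3]
    exact Nat.ModEq.add_right c h2

/-! ### factors -/

lemma factor_length {α : Type} (f : ℕ → α) (i n : ℕ) : (factor f i n).length = n := by
  simp [factor]

lemma factor_add {α : Type} (f : ℕ → α) (i a b : ℕ) :
    factor f i (a + b) = factor f i a ++ factor f (i + a) b := by
  unfold factor
  rw [List.range_add, List.map_append, List.map_map]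
  congr 1
  apply List.map_congr_left
  intro t _
  simp [add_assoc]

lemma factor_split {α : Type} (f : ℕ → α) (i n : ℕ) (l₁ l₂ : List α)
    (h : factor f i n = l₁ ++ l₂) :
    factor f i l₁.length = l₁ ∧ factor f (i + l₁.length) l₂.length = l₂ := by
  have hn : n = l₁.length + l₂.length := by
    have := congrArg List.length h
    rwa [factor_length, List.length_append] at this
  rw [hn, factor_add] at h
  exact List.append_inj h (factor_length _ _ _)

lemma factor_get {α : Type} {f g : ℕ → α} {i j n : ℕ} (h : factor f i n = factor g j n)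
    (t : ℕ) (ht : t < n) : f (i + t) = g (j + t) := by
  unfold factor at h
  have := List.map_inj_left.1 h t (List.mem_range.2 ht)
  exact this

/-! ### no match of a connected set of pairs in `W` -/

/-- the pairs are connected: if the right end of `p.1` agrees with the left end of `p.2` for all
pairs `p`, then the two ends agree for each variable -/
def Conn (E : List (ℕ × ℕ)) : Prop :=
  ∀ (T : Type) (s e : ℕ → T), (∀ p ∈ E, e p.1 = s p.2) →
    ∀ p ∈ E, e p.1 = s p.1 ∧ e p.2 = s p.2

lemma no_match (E : List (ℕ × ℕ)) (hE : E ≠ []) (hc : Conn E) (B : ℕ → List ℕ)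
    (hB : ∀ p ∈ E, 1 ≤ (B p.1).length ∧ 1 ≤ (B p.2).length)
    (hocc : ∀ p ∈ E, ∃ i n, factor W i n = B p.1 ++ B p.2) : False := by
  classical
  -- positions
  have hocc1 : ∀ p ∈ E, ∃ i, factor W i (B p.1).length = B p.1 ∧
      factor W (i + (B p.1).length) (B p.2).length = B p.2 := by
    intro p hp
    obtain ⟨i, n, h⟩ := hocc p hp
    exact ⟨i, factor_split W i n _ _ h⟩
  have hex : ∀ v, ∃ i, (∃ j, factor W j (B v).length = B v) → factor W i (B v).length = B v := by
    intro v
    by_cases h : ∃ j, factor W j (B v).length = B v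
    · obtain ⟨j, hj⟩ := h
      exact ⟨j, fun _ => hj⟩
    · exact ⟨0, fun h' => absurd h' h⟩
  choose pos hpos using hex
  have hdiv : ∀ k, ∀ p ∈ E, 8 ^ k ∣ (B p.1).length ∧ 8 ^ k ∣ (B p.2).length := by
    intro k
    induction k with
    | zero => intro p _; simp
    | succ k ih =>
      have huniq : ∀ (v i j : ℕ), 1 ≤ (B v).length → 8 ^ k ∣ (B v).length →
          factor W i (B v).length = B v → factor W j (B v).length = B v →
          i ≡ j [MOD 8 ^ (k + 1)] := by
        intro v i j h1 h2 h3 h4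
        apply winP
        intro t ht
        exact factor_get (h3.trans h4.symm) t (lt_of_lt_of_le ht (Nat.le_of_dvd h1 h2))
      have hs : ∀ p ∈ E, (((pos p.1 + (B p.1).length : ℕ) : ZMod (8 ^ (k + 1))))
          = ((pos p.2 : ℕ) : ZMod (8 ^ (k + 1))) := by
        intro p hp
        obtain ⟨i, hi1, hi2⟩ := hocc1 p hp
        obtain ⟨hb1, hb2⟩ := hB p hp
        obtain ⟨hd1, hd2⟩ := ih p hp
        have e1 := huniq p.1 i (pos p.1) hb1 hd1 hi1 (hpos p.1 ⟨i, hi1⟩)
        have e2 := huniq p.2 _ (pos p.2) hb2 hd2 hi2 (hpos p.2 ⟨_, hi2⟩)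
        rw [ZMod.natCast_eq_natCast_iff]
        exact ((Nat.ModEq.add_right _ e1).symm).trans e2
      have hcc := hc (ZMod (8 ^ (k + 1))) (fun v => ((pos v : ℕ) : ZMod (8 ^ (k + 1))))
        (fun v => ((pos v + (B v).length : ℕ) : ZMod (8 ^ (k + 1)))) hs
      have hz : ∀ v, (((pos v + (B v).length : ℕ) : ZMod (8 ^ (k + 1))))
          = ((pos v : ℕ) : ZMod (8 ^ (k + 1))) → 8 ^ (k + 1) ∣ (B v).length := by
        intro v hv
        rw [← ZMod.natCast_eq_zero_iff]
        rw [Nat.cast_add] at hv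
        simpa using hv
      intro p hp
      exact ⟨hz _ (hcc p hp).1, hz _ (hcc p hp).2⟩
  obtain ⟨p, hp⟩ := List.exists_mem_of_ne_nil E hE
  have h1 := (hdiv (B p.1).length p hp).1
  have h2 := Nat.le_of_dvd (hB p hp).1 h1
  have h3 : (B p.1).length < 8 ^ (B p.1).length := Nat.lt_pow_self (by norm_num)
  omega

/-! ### the pattern attached to a list of pairs -/

/-- the pattern `s₀ u₀ v₀ s₁ u₁ v₁ …` with separating variables `s₀, s₁, …` occurring once -/
def pat : ℕ → List (ℕ × ℕ) → List ℕ
  | _, [] => []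
  | k, p :: E => (2 * k + 1) :: (2 * p.1) :: (2 * p.2) :: pat (k + 1) E

lemma mem_pat {E : List (ℕ × ℕ)} : ∀ {k : ℕ} {p : ℕ × ℕ}, p ∈ E →
    2 * p.1 ∈ pat k E ∧ 2 * p.2 ∈ pat k E := by
  induction E with
  | nil => intro k p hp; simp at hp
  | cons q E ih =>
    intro k p hp
    rcases List.mem_cons.1 hp with h | h
    · subst h
      simp [pat]
    · obtain ⟨h1, h2⟩ := ih (k := k + 1) h
      simp [pat, h1, h2]

lemma pat_occ {α : Type} (f : ℕ → α) (B : ℕ → List α) : ∀ (E : List (ℕ × ℕ)) (k i n : ℕ),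
    factor f i n = ((pat k E).map B).flatten →
    ∀ p ∈ E, ∃ i' n', factor f i' n' = B (2 * p.1) ++ B (2 * p.2) := by
  intro E
  induction E with
  | nil => intro k i n _ p hp; simp at hp
  | cons q E ih =>
    intro k i n h p hp
    have h1 : ((pat k (q :: E)).map B).flatten
        = B (2 * k + 1) ++ ((B (2 * q.1) ++ B (2 * q.2)) ++ ((pat (k + 1) E).map B).flatten) := by
      simp [pat]
    rw [h1] at h
    have h2 := (factor_split f i n _ _ h).2
    have h3 := factor_split f _ _ _ _ h2
    rcases List.mem_cons.1 hp with hq | hq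
    · subst hq
      exact ⟨_, _, h3.1⟩
    · exact ih (k + 1) _ _ h3.2 p hq

theorem avoidable_pat (E : List (ℕ × ℕ)) (hE : E ≠ []) (hc : Conn E) : Avoidable (pat 0 E) := by
  refine ⟨16, fun n => ⟨W n, W_lt n⟩, ?_⟩
  rintro i n ⟨B, hB1, hB2⟩
  refine no_match E hE hc (fun v => (B (2 * v)).map Fin.val) ?_ ?_
  · intro p hp
    obtain ⟨h1, h2⟩ := mem_pat (k := 0) hp
    simpa using ⟨hB1 _ h1, hB1 _ h2⟩
  · intro p hp
    obtain ⟨i', n', h⟩ := pat_occ _ B E 0 i n hB2 p hp
    refine ⟨i', n', ?_⟩
    have := congrArg (List.map Fin.val) h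
    rw [List.map_append] at this
    rw [← this]
    simp [factor]

/-! ### the pairs -/

/-- the number of states in a chain -/
def KK (N : ℕ) : ℕ := N + N.factorial

/-- the successor in a chain -/
def nxt (N i : ℕ) : ℕ := if i + 1 < KK N then i + 1 else N

/-- the variables `x` of the chain `b` -/
def X (b i : ℕ) : ℕ := 3 + 4 * i + 2 * b

/-- the variables `z` of the chain `b` -/
def Z (b i : ℕ) : ℕ := 4 + 4 * i + 2 * b

/-- the pairs of the chain `b` at the place `i` -/
def chainPairs (N b i : ℕ) : List (ℕ × ℕ) :=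
  [(X b i, Z b i), (0, Z b i), (0, X b i), (Z b i, X b (nxt N i))]

/-- all the pairs -/
def EE (N : ℕ) : List (ℕ × ℕ) :=
  [(Z 0 0, 1), (1, 0), (1, 2), (0, 2), (2, X 1 0)] ++
    ((List.range (KK N)).flatMap (chainPairs N 0) ++ (List.range (KK N)).flatMap (chainPairs N 1))

lemma KK_pos (N : ℕ) : N < KK N := by
  unfold KK
  have := Nat.factorial_pos N
  omega

lemma nxt_lt (N i : ℕ) : nxt N i < KK N := by
  unfold nxt
  have := KK_pos N
  split_ifs with h
  · exact h
  · exact this

lemma mem_EE {N : ℕ} {p : ℕ × ℕ} : p ∈ EE N ↔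
    (p = (Z 0 0, 1) ∨ p = (1, 0) ∨ p = (1, 2) ∨ p = (0, 2) ∨ p = (2, X 1 0)) ∨
    ∃ b, (b = 0 ∨ b = 1) ∧ ∃ i < KK N, p = (X b i, Z b i) ∨ p = (0, Z b i) ∨ p = (0, X b i) ∨
      p = (Z b i, X b (nxt N i)) := by
  unfold EE
  rw [List.mem_append, List.mem_append, List.mem_flatMap, List.mem_flatMap]
  simp only [List.mem_cons, List.not_mem_nil, or_false, List.mem_range, chainPairs]
  constructor
  · rintro (h | h | h)
    · exact Or.inl h
    · exact Or.inr ⟨0, Or.inl rfl, h⟩
    · exact Or.inr ⟨1, Or.inr rfl, h⟩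
  · rintro (h | ⟨b, hb | hb, h⟩)
    · exact Or.inl h
    · subst hb; exact Or.inr (Or.inl h)
    · subst hb; exact Or.inr (Or.inr h)

lemma EE_ne (N : ℕ) : EE N ≠ [] := by
  simp [EE]

lemma EE_conn (N : ℕ) : Conn (EE N) := by
  intro T s e h
  have hch : ∀ b, (b = 0 ∨ b = 1) → ∀ i < KK N, e (X b i) = s (Z b i) ∧ e 0 = s (Z b i) ∧
      e 0 = s (X b i) ∧ e (Z b i) = s (X b (nxt N i)) := by
    intro b hb i hi
    refine ⟨h _ (mem_EE.2 (Or.inr ⟨b, hb, i, hi, Or.inl rfl⟩)),
      h _ (mem_EE.2 (Or.inr ⟨b, hb, i, hi, Or.inr (Or.inl rfl)⟩)),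
      h _ (mem_EE.2 (Or.inr ⟨b, hb, i, hi, Or.inr (Or.inr (Or.inl rfl))⟩)),
      h _ (mem_EE.2 (Or.inr ⟨b, hb, i, hi, Or.inr (Or.inr (Or.inr rfl))⟩))⟩
  have hX : ∀ b, (b = 0 ∨ b = 1) → ∀ i < KK N, e (X b i) = e 0 ∧ s (X b i) = e 0 ∧
      e (Z b i) = e 0 ∧ s (Z b i) = e 0 := by
    intro b hb i hi
    obtain ⟨h1, h2, h3, h4⟩ := hch b hb i hi
    obtain ⟨-, -, h5, -⟩ := hch b hb _ (nxt_lt N i)
    exact ⟨h1.trans h2.symm, h3.symm, h4.trans h5.symm, h2.symm⟩
  have hK : 0 < KK N := lt_of_le_of_lt (Nat.zero_le _) (KK_pos N)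
  have a1 : e (Z 0 0) = s 1 := h _ (mem_EE.2 (Or.inl (Or.inl rfl)))
  have a2 : e 1 = s 0 := h _ (mem_EE.2 (Or.inl (Or.inr (Or.inl rfl))))
  have a3 : e 1 = s 2 := h _ (mem_EE.2 (Or.inl (Or.inr (Or.inr (Or.inl rfl)))))
  have a4 : e 0 = s 2 := h _ (mem_EE.2 (Or.inl (Or.inr (Or.inr (Or.inr (Or.inl rfl))))))
  have a5 : e 2 = s (X 1 0) := h _ (mem_EE.2 (Or.inl (Or.inr (Or.inr (Or.inr (Or.inr rfl))))))
  have b1 : s 1 = e 0 := a1.symm.trans (hX 0 (Or.inl rfl) 0 hK).2.2.1
  have b2 : e 1 = e 0 := a3.trans a4.symm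
  have b3 : s 0 = e 0 := a2.symm.trans b2
  have b4 : s 2 = e 0 := a4.symm
  have b5 : e 2 = e 0 := a5.trans (hX 1 (Or.inr rfl) 0 hK).2.1
  intro p hp
  rcases mem_EE.1 hp with (h1 | h1 | h1 | h1 | h1) | ⟨b, hb, i, hi, h1 | h1 | h1 | h1⟩
  · subst h1
    obtain ⟨c1, c2, c3, c4⟩ := hX 0 (Or.inl rfl) 0 hK
    exact ⟨c3.trans c4.symm, b2.trans b1.symm⟩
  · subst h1
    exact ⟨b2.trans b1.symm, b3.symm⟩
  · subst h1
    exact ⟨b2.trans b1.symm, b5.trans b4.symm⟩
  · subst h1
    exact ⟨b3.symm, b5.trans b4.symm⟩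
  · subst h1
    obtain ⟨c1, c2, c3, c4⟩ := hX 1 (Or.inr rfl) 0 hK
    exact ⟨b5.trans b4.symm, c1.trans c2.symm⟩
  · subst h1
    obtain ⟨c1, c2, c3, c4⟩ := hX b hb i hi
    exact ⟨c1.trans c2.symm, c3.trans c4.symm⟩
  · subst h1
    obtain ⟨c1, c2, c3, c4⟩ := hX b hb i hi
    exact ⟨b3.symm, c3.trans c4.symm⟩
  · subst h1
    obtain ⟨c1, c2, c3, c4⟩ := hX b hb i hi
    exact ⟨b3.symm, c1.trans c2.symm⟩
  · subst h1
    obtain ⟨c1, c2, c3, c4⟩ := hX b hb i hi
    obtain ⟨d1, d2, d3, d4⟩ := hX b hb _ (nxt_lt N i)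
    exact ⟨c3.trans c4.symm, d1.trans d2.symm⟩

/-- iterates of a map on at most `N` letters -/
lemma iterate_period {c N : ℕ} (hc : c ≤ N) (φ : Fin c → Fin c) (x : Fin c) :
    φ^[KK N] x = φ^[N] x := by
  -- two of the first `N + 1` iterates agree
  obtain ⟨i, j, hij, hjN, he⟩ : ∃ i j : ℕ, i < j ∧ j ≤ N ∧ φ^[i] x = φ^[j] x := by
    have hcard : (Finset.univ : Finset (Fin c)).card < (Finset.range (N + 1)).card := by
      simp; omega
    obtain ⟨i, hi, j, hj, hne, he⟩ := Finset.exists_ne_map_eq_of_card_lt_of_maps_to hcard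
      (f := fun i => φ^[i] x) (fun _ _ => Finset.mem_coe.2 (Finset.mem_univ _))
    have hi' := Finset.mem_range.1 hi
    have hj' := Finset.mem_range.1 hj
    rcases lt_or_gt_of_ne hne with h | h
    · exact ⟨i, j, h, by omega, he⟩
    · exact ⟨j, i, h, by omega, he.symm⟩
  have h1 : ∀ n, i ≤ n → φ^[n + (j - i)] x = φ^[n] x := by
    intro n hn
    have e1 : n + (j - i) = (n - i) + j := by omega
    have e2 : n = (n - i) + i := by omega
    rw [e1, Function.iterate_add_apply, ← he, ← Function.iterate_add_apply, ← e2]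
  have h2 : ∀ t, φ^[N + t * (j - i)] x = φ^[N] x := by
    intro t
    induction t with
    | zero => simp
    | succ t ih =>
      have e : N + (t + 1) * (j - i) = (N + t * (j - i)) + (j - i) := by ring
      rw [e, h1 _ (by omega), ih]
  obtain ⟨t, ht⟩ : (j - i) ∣ N.factorial := Nat.dvd_factorial (by omega) (by omega)
  unfold KK
  rw [ht, mul_comm]
  exact h2 t

/-! ### finite plays -/

section game

variable {c : ℕ} (σ : List (Fin c) → Fin c)

/-- `H` is a finite play in which Player 1 follows `σ` -/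
def FPlay (H : List (Fin c)) : Prop :=
  ∀ G a T, H = G ++ a :: T → Even G.length → a = σ G

lemma FPlay.nil : FPlay σ [] := by
  intro G a T h
  simp at h

variable {σ}

lemma FPlay.left {H T : List (Fin c)} (h : FPlay σ (H ++ T)) : FPlay σ H := by
  intro G a T' hG he
  exact h G a (T' ++ T) (by rw [hG]; simp) he

lemma FPlay.snoc {H : List (Fin c)} {a : Fin c} (h : FPlay σ H)
    (ha : Even H.length → a = σ H) : FPlay σ (H ++ [a]) := by
  intro G b T hG he
  rcases List.eq_nil_or_concat T with hT | ⟨T', t, hT⟩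
  · subst hT
    obtain ⟨h1, h2⟩ := List.append_inj' hG rfl
    subst h1
    have h3 : a = b := by simpa using h2
    rw [← h3]
    exact ha he
  · subst hT
    have h1 : H ++ [a] = (G ++ b :: T') ++ [t] := by rw [hG]; simp
    obtain ⟨h2, -⟩ := List.append_inj' h1 rfl
    exact h G b T' h2 he

/-- the move of Player 1 -/
lemma FPlay.p1 {H : List (Fin c)} (h : FPlay σ H) : FPlay σ (H ++ [σ H]) :=
  h.snoc fun _ => rfl

/-- a move of Player 2 -/
lemma FPlay.p2 {H : List (Fin c)} (h : FPlay σ H) (ho : ¬ Even H.length) (a : Fin c) :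
    FPlay σ (H ++ [a]) :=
  h.snoc fun he => absurd he ho

/-- a round: a move of Player 2 and the answer of Player 1 -/
lemma FPlay.round {H : List (Fin c)} (h : FPlay σ H) (ho : ¬ Even H.length) (a : Fin c) :
    FPlay σ (H ++ [a, σ (H ++ [a])]) := by
  have h1 := (h.p2 ho a).p1
  rwa [List.append_assoc] at h1

variable (σ)

/-- the words of length at most `l` that can still be produced after `H` -/
def Poss (l : ℕ) (H : List (Fin c)) : Set (List (Fin c)) :=
  {z | z.length ≤ l ∧ ∃ g : List (Fin c), 2 ≤ g.length ∧ FPlay σ (H ++ g ++ z)}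

variable {σ}

lemma Poss_anti (l : ℕ) (H e : List (Fin c)) : Poss σ l (H ++ e) ⊆ Poss σ l H := by
  rintro z ⟨hz, g, hg, h⟩
  refine ⟨hz, e ++ g, ?_, ?_⟩
  · rw [List.length_append]; omega
  · rwa [← List.append_assoc]

lemma exists_stable (l : ℕ) : ∃ H, FPlay σ H ∧
    (∀ e, FPlay σ (H ++ e) → Poss σ l H ⊆ Poss σ l (H ++ e)) ∧ Even H.length := by
  classical
  have hfin : ∀ H, (Poss σ l H).Finite := fun H =>
    (List.finite_length_le (Fin c) l).subset fun z hz => hz.1
  have hex : ∃ n, ∃ H, FPlay σ H ∧ (Poss σ l H).ncard = n := ⟨_, [], FPlay.nil σ, rfl⟩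
  obtain ⟨H, hH, hn⟩ := Nat.find_spec hex
  have hst : ∀ e, FPlay σ (H ++ e) → Poss σ l H ⊆ Poss σ l (H ++ e) := by
    intro e he
    have h1 : Nat.find hex ≤ (Poss σ l (H ++ e)).ncard := Nat.find_min' hex ⟨_, he, rfl⟩
    have h2 := Set.eq_of_subset_of_ncard_le (Poss_anti l H e) (by rw [hn]; exact h1) (hfin H)
    rw [h2]
  by_cases hev : Even H.length
  · exact ⟨H, hH, hst, hev⟩
  · refine ⟨H ++ [σ []], hH.p2 hev _, ?_, ?_⟩
    · intro e he z hz
      have h1 := Poss_anti l H _ hz
      rw [List.append_assoc] at he ⊢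
      exact hst _ he h1
    · rw [List.length_append, List.length_singleton]
      exact (Nat.not_even_iff_odd.1 hev).add_one

variable (σ)

/-- Player 2 plays the letters of the list one after the other, Player 1 answers -/
def run : List (Fin c) → List (Fin c) → List (Fin c)
  | _, [] => []
  | H, a :: L => a :: σ (H ++ [a]) :: run (H ++ [a, σ (H ++ [a])]) L

variable {σ}

lemma run_play : ∀ (L H : List (Fin c)), FPlay σ H → ¬ Even H.length →
    FPlay σ (H ++ run σ H L) := by
  intro L
  induction L with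
  | nil => intro H hH _; simpa [run] using hH
  | cons a L ih =>
    intro H hH ho
    have h1 := hH.round ho a
    have h2 : ¬ Even (H ++ [a, σ (H ++ [a])]).length := by
      rw [List.length_append]
      simpa [Nat.even_add] using ho
    have h3 := ih _ h1 h2
    simpa [run] using h3

lemma run_length : ∀ (L H : List (Fin c)), (run σ H L).length = 2 * L.length := by
  intro L
  induction L with
  | nil => intro H; simp [run]
  | cons a L ih => intro H; simp [run, ih]; ring

lemma run_append : ∀ (L₁ L₂ H : List (Fin c)),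
    run σ H (L₁ ++ L₂) = run σ H L₁ ++ run σ (H ++ run σ H L₁) L₂ := by
  intro L₁
  induction L₁ with
  | nil => intro L₂ H; simp [run]
  | cons a L ih =>
    intro L₂ H
    simp [run, ih]

/-- the blocks: the words `D` for the variables of the pairs, the words `G` for the separating
variables -/
def asg (D G : ℕ → List (Fin c)) (n : ℕ) : List (Fin c) :=
  if n % 2 = 0 then D (n / 2) else G (n / 2)

lemma asg_even (D G : ℕ → List (Fin c)) (n : ℕ) : asg D G (2 * n) = D n := by
  unfold asg
  rw [if_pos (by omega)]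
  congr 1
  omega

lemma asg_odd (D G : ℕ → List (Fin c)) (n : ℕ) : asg D G (2 * n + 1) = G n := by
  unfold asg
  rw [if_neg (by omega)]
  congr 1
  omega

lemma asg_congr (D G G' : ℕ → List (Fin c)) (E : List (ℕ × ℕ)) : ∀ k : ℕ,
    (∀ m, k ≤ m → G m = G' m) → (pat k E).map (asg D G) = (pat k E).map (asg D G') := by
  induction E with
  | nil => intro k _; simp [pat]
  | cons p E ih =>
    intro k h
    simp only [pat, List.map_cons, asg_even, asg_odd]
    rw [h k le_rfl, ih (k + 1) fun m hm => h m (by omega)]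

lemma realize {l : ℕ} {H : List (Fin c)}
    (hst : ∀ e, FPlay σ (H ++ e) → Poss σ l H ⊆ Poss σ l (H ++ e)) (D : ℕ → List (Fin c)) :
    ∀ (E : List (ℕ × ℕ)) (k : ℕ) (e : List (Fin c)), FPlay σ (H ++ e) →
      (∀ p ∈ E, D p.1 ++ D p.2 ∈ Poss σ l H) →
      ∃ G : ℕ → List (Fin c), (∀ m, 2 ≤ (G m).length) ∧
        FPlay σ (H ++ e ++ ((pat k E).map (asg D G)).flatten) := by
  intro E
  induction E with
  | nil =>
    intro k e he _
    exact ⟨fun _ => [σ [], σ []], fun _ => by simp, by simpa [pat] using he⟩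
  | cons p E ih =>
    intro k e he hE
    obtain ⟨-, g, hg, h1⟩ := hst e he (hE p (by simp))
    have h2 : FPlay σ (H ++ (e ++ g ++ (D p.1 ++ D p.2))) := by
      simpa [List.append_assoc] using h1
    obtain ⟨G, hG, h3⟩ := ih (k + 1) _ h2 fun q hq => hE q (List.mem_cons_of_mem _ hq)
    refine ⟨Function.update G k g, ?_, ?_⟩
    · intro m
      by_cases hm : m = k
      · subst hm; simpa using hg
      · simpa [hm] using hG m
    · have h4 : (pat (k + 1) E).map (asg D (Function.update G k g))
          = (pat (k + 1) E).map (asg D G) :=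
        asg_congr D _ _ E (k + 1) fun m hm => by
          rw [Function.update_of_ne (by omega)]
      have h5 : ((pat k (p :: E)).map (asg D (Function.update G k g))).flatten
          = g ++ (D p.1 ++ D p.2) ++ ((pat (k + 1) E).map (asg D G)).flatten := by
        simp only [pat, List.map_cons, asg_even, asg_odd, Function.update_self,
          List.flatten_cons, h4, List.append_assoc]
      rw [h5]
      simpa [List.append_assoc] using h3

/-- the histories of an infinite play extending `H` -/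
noncomputable def hist (σ : List (Fin c) → Fin c) (H : List (Fin c)) : ℕ → List (Fin c)
  | 0 => []
  | n + 1 => hist σ H n ++ [H.getD n (σ (hist σ H n))]

lemma hist_length (H : List (Fin c)) (n : ℕ) : (hist σ H n).length = n := by
  induction n with
  | zero => rfl
  | succ n ih => simp [hist, ih]

lemma hist_factor (H : List (Fin c)) (n : ℕ) :
    factor (fun n => H.getD n (σ (hist σ H n))) 0 n = hist σ H n := by
  induction n with
  | zero => rfl
  | succ n ih =>
    rw [factor_add, ih]
    simp [hist, factor]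

lemma hist_take (H : List (Fin c)) (n : ℕ) (hn : n ≤ H.length) : hist σ H n = H.take n := by
  induction n with
  | zero => simp [hist]
  | succ n ih =>
    have h1 : n < H.length := by omega
    simp only [hist]
    rw [ih (by omega), List.take_add_one, List.getD_eq_getElem?_getD]
    simp [h1]

lemma exists_play {H : List (Fin c)} (hH : FPlay σ H) :
    ∃ f : ℕ → Fin c, Follows σ f ∧ factor f 0 H.length = H := by
  refine ⟨fun n => H.getD n (σ (hist σ H n)), ?_, ?_⟩
  · intro i
    rw [hist_factor]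
    by_cases h : 2 * i < H.length
    · have h1 : H = H.take (2 * i) ++ H[2 * i] :: H.drop (2 * i + 1) := by
        rw [List.getElem_cons_drop, List.take_append_drop]
      have h2 := hH _ _ _ h1 (by rw [List.length_take, min_eq_left h.le]; exact even_two_mul i)
      rw [hist_take H _ h.le, ← h2]
      simp [List.getD_eq_getElem?_getD, h]
    · have h1 : H.length ≤ 2 * i := by omega
      simp [List.getD_eq_getElem?_getD, List.getElem?_eq_none h1]
  · rw [hist_factor, hist_take H _ le_rfl, List.take_length]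

end game

/-! ### Player 2 forces the pattern -/

theorem player2 {N c : ℕ} (hcN : c ≤ N) (σ : List (Fin c) → Fin c) :
    ∃ f : ℕ → Fin c, Follows σ f ∧ ∃ i n, Matches 2 (pat 0 (EE N)) (factor f i n) := by
  classical
  obtain ⟨d, hd⟩ : ∃ d, d = σ [] := ⟨_, rfl⟩
  have : Nonempty (Fin c) := ⟨d⟩
  obtain ⟨l, hl⟩ : ∃ l, l = 2 * (c + 1) + 2 := ⟨_, rfl⟩
  obtain ⟨H, hH, hst, hev⟩ := exists_stable (σ := σ) l
  -- the first three letters after `H`
  obtain ⟨r, hr⟩ : ∃ r : List (Fin c), r = [σ H, d, σ (H ++ [σ H] ++ [d])] := ⟨_, rfl⟩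
  have hrl : r.length = 3 := by rw [hr]; rfl
  have hHr : FPlay σ (H ++ r) := by
    have h1 := hH.p1
    have h2 : ¬ Even (H ++ [σ H]).length := by
      rw [List.length_append, List.length_singleton]
      simpa [Nat.even_add_one] using hev
    have h3 := (h1.p2 h2 d).p1
    rw [hr]
    simpa [List.append_assoc] using h3
  have hHro : ¬ Even (H ++ r).length := by
    rw [List.length_append, hrl]
    intro h
    have h1 : Even 3 := by
      have := (Nat.even_add.1 h).1 hev
      exact this
    revert h1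
    decide
  -- the word `v`
  obtain ⟨L, hL⟩ : ∃ L : List (Fin c), L = List.finRange c ++ [d] := ⟨_, rfl⟩
  have hLl : L.length = c + 1 := by rw [hL]; simp
  obtain ⟨v, hv⟩ : ∃ v, v = run σ (H ++ r) L := ⟨_, rfl⟩
  have hvl : v.length = 2 * (c + 1) := by rw [hv, run_length, hLl]
  have hV : FPlay σ (H ++ r ++ v) := by rw [hv]; exact run_play L _ hHr hHro
  have hVo : ¬ Even (H ++ r ++ v).length := by
    rw [List.length_append, hvl, Nat.even_add]
    intro h
    exact hHro (h.2 (even_two_mul _))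
  -- words ending in a suffix of `v`
  have hsuf : ∀ (v₁ y q : List (Fin c)), v = v₁ ++ y → q.length ≤ 2 →
      FPlay σ (H ++ r ++ v ++ q) → y ++ q ∈ Poss σ l H := by
    intro v₁ y q h1 h2 h3
    refine ⟨?_, r ++ v₁, ?_, ?_⟩
    · have := congrArg List.length h1
      rw [List.length_append, hvl] at this
      rw [List.length_append]
      omega
    · rw [List.length_append, hrl]; omega
    · rw [h1] at h3
      simpa [List.append_assoc] using h3
  obtain ⟨τ, hτ⟩ : ∃ τ : Fin c → Fin c, τ = fun a => σ (H ++ r ++ v ++ [a]) := ⟨_, rfl⟩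
  have hround : ∀ a, FPlay σ (H ++ r ++ v ++ [a, τ a]) := by
    intro a
    have := hV.round hVo a
    rw [hτ]
    exact this
  have hyx : ∀ (v₁ y : List (Fin c)) (a : Fin c), v = v₁ ++ y → y ++ [a, τ a] ∈ Poss σ l H :=
    fun v₁ y a h => hsuf v₁ y _ h (by simp) (hround a)
  -- the letters of Player 1
  obtain ⟨S, hS⟩ : ∃ S : Set (Fin c), S = {b | ∃ g : List (Fin c), 2 ≤ g.length ∧
      Even (H ++ g).length ∧ FPlay σ (H ++ g) ∧ σ (H ++ g) = b} := ⟨_, rfl⟩
  have hS0 : ∃ b, b ∈ S := by
    refine ⟨σ (H ++ [σ H, d]), ?_⟩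
    rw [hS]
    refine ⟨[σ H, d], by simp, ?_, ?_, rfl⟩
    · rw [List.length_append]
      simpa [Nat.even_add] using hev
    · have h2 : ¬ Even (H ++ [σ H]).length := by
        rw [List.length_append, List.length_singleton]
        simpa [Nat.even_add_one] using hev
      have h3 := hH.p1.p2 h2 d
      simpa [List.append_assoc] using h3
  have step : ∀ b t : Fin c, b ∈ S → ∃ a a' b' : Fin c, b' ∈ S ∧
      [b, t, a, a'] ∈ Poss σ l H ∧
      (∀ v₁ y : List (Fin c), v = v₁ ++ y → y ++ [a, a'] ∈ Poss σ l H) ∧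
      ∀ t' : Fin c, [a, a', b', t'] ∈ Poss σ l H := by
    intro b t hb
    rw [hS] at hb
    obtain ⟨g, hg2, hge, hgp, hgb⟩ := hb
    have e1 : ¬ Even (H ++ g ++ [b]).length := by
      rw [List.length_append, List.length_singleton]
      simpa [Nat.even_add_one] using hge
    have p1 : FPlay σ (H ++ g ++ [b]) := by rw [← hgb]; exact hgp.p1
    have p2 : FPlay σ (H ++ g ++ [b, t]) := by
      simpa [List.append_assoc] using p1.p2 e1 t
    have e2 : Even (H ++ g ++ [b, t]).length := by
      rw [List.length_append]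
      simpa [Nat.even_add] using hge
    obtain ⟨a, ha⟩ : ∃ a, a = σ (H ++ g ++ [b, t]) := ⟨_, rfl⟩
    have p3 : FPlay σ (H ++ g ++ [b, t, a]) := by
      have := p2.p1
      rw [← ha] at this
      simpa [List.append_assoc] using this
    have hge' := hge
    rw [Nat.even_iff, List.length_append] at hge'
    have e3 : ¬ Even (H ++ g ++ [b, t, a]).length := by
      rw [Nat.even_iff, List.length_append, List.length_append]
      simp only [List.length_cons, List.length_nil]
      omega
    have p4 : FPlay σ (H ++ g ++ [b, t, a, τ a]) := by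
      simpa [List.append_assoc] using p3.p2 e3 (τ a)
    have e4 : Even (H ++ g ++ [b, t, a, τ a]).length := by
      rw [Nat.even_iff, List.length_append, List.length_append]
      simp only [List.length_cons, List.length_nil]
      omega
    obtain ⟨b', hb'⟩ : ∃ b', b' = σ (H ++ g ++ [b, t, a, τ a]) := ⟨_, rfl⟩
    have p5 : FPlay σ (H ++ g ++ [b, t, a, τ a, b']) := by
      have := p4.p1
      rw [← hb'] at this
      simpa [List.append_assoc] using this
    have e5 : ¬ Even (H ++ g ++ [b, t, a, τ a, b']).length := by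
      rw [Nat.even_iff, List.length_append, List.length_append]
      simp only [List.length_cons, List.length_nil]
      omega
    have p6 : ∀ t', FPlay σ (H ++ g ++ [b, t, a, τ a, b', t']) := by
      intro t'
      simpa [List.append_assoc] using p5.p2 e5 t'
    refine ⟨a, τ a, b', ?_, ?_, ?_, ?_⟩
    · rw [hS]
      refine ⟨g ++ [b, t, a, τ a], ?_, ?_, ?_, ?_⟩
      · rw [List.length_append]; omega
      · rw [← List.append_assoc]; exact e4
      · rw [← List.append_assoc]; exact p4
      · rw [← List.append_assoc]; exact hb'.symm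
    · exact ⟨by simp; omega, g, hg2, p4⟩
    · intro v₁ y hy
      exact hyx v₁ y a hy
    · intro t'
      refine ⟨by simp; omega, g ++ [b, t], ?_, ?_⟩
      · rw [List.length_append]; omega
      · simpa [List.append_assoc] using p6 t'
  choose! aa bb ff hff1 hff2 hff3 hff4 using step
  obtain ⟨φ, hφ⟩ : ∃ φ : Fin c → Fin c, φ = fun b => ff b (τ b) := ⟨_, rfl⟩
  obtain ⟨β, hβ⟩ := hS0
  have hφS : ∀ b ∈ S, φ b ∈ S := by
    intro b hb
    rw [hφ]
    exact hff1 b (τ b) hb
  obtain ⟨j, hj⟩ : ∃ j, j = φ β := ⟨_, rfl⟩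
  have hjS : j ∈ S := by rw [hj]; exact hφS β hβ
  -- the decomposition of `v`
  obtain ⟨v₁, t, y, hvy, hyl⟩ : ∃ (v₁ : List (Fin c)) (t : Fin c) (y : List (Fin c)),
      v = v₁ ++ (j :: t :: y) ∧ 2 ≤ y.length := by
    obtain ⟨L₁, L₂, hLL⟩ := List.append_of_mem (List.mem_finRange j)
    refine ⟨run σ (H ++ r) L₁, σ (H ++ r ++ run σ (H ++ r) L₁ ++ [j]),
      run σ (H ++ r ++ run σ (H ++ r) L₁ ++
        [j, σ (H ++ r ++ run σ (H ++ r) L₁ ++ [j])]) (L₂ ++ [d]), ?_, ?_⟩
    · rw [hv, hL, hLL, List.append_assoc, run_append]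
      rfl
    · rw [run_length, List.length_append, List.length_singleton]; omega
  have hvy' : v = (v₁ ++ [j, t]) ++ y := by rw [hvy]; simp
  obtain ⟨κ, hκ⟩ : ∃ κ : ℕ → ℕ → Fin c,
      κ = fun b i => if b = 0 then φ^[i] β else φ^[i] (ff j t) := ⟨_, rfl⟩
  have hφit : ∀ i x, x ∈ S → φ^[i] x ∈ S := by
    intro i x hx
    induction i with
    | zero => simpa using hx
    | succ i ih => rw [Function.iterate_succ_apply']; exact hφS _ ih
  have hκS : ∀ b i, κ b i ∈ S := by
    intro b i
    rw [hκ]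
    dsimp only
    split_ifs
    · exact hφit i _ hβ
    · exact hφit i _ (hff1 j t hjS)
  have hnx : ∀ x : Fin c, ∀ i < KK N, φ^[nxt N i] x = φ (φ^[i] x) := by
    intro x i hi
    unfold nxt
    split_ifs with h
    · rw [Function.iterate_succ_apply']
    · have h1 : i + 1 = KK N := by omega
      rw [← iterate_period hcN φ x, ← h1, Function.iterate_succ_apply']
  have hκn : ∀ b, ∀ i < KK N, κ b (nxt N i) = φ (κ b i) := by
    intro b i hi
    rw [hκ]
    dsimp only
    split_ifs
    · exact hnx _ i hi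
    · exact hnx _ i hi
  -- the blocks
  obtain ⟨D, hD⟩ : ∃ D : ℕ → List (Fin c), D = fun n =>
      if n = 0 then y else if n = 1 then [j, t] else if n = 2 then [aa j t, bb j t]
      else if (n - 3) % 4 = 0 then [κ 0 ((n - 3) / 4), τ (κ 0 ((n - 3) / 4))]
      else if (n - 3) % 4 = 1 then [aa (κ 0 ((n - 3) / 4)) (τ (κ 0 ((n - 3) / 4))),
        bb (κ 0 ((n - 3) / 4)) (τ (κ 0 ((n - 3) / 4)))]
      else if (n - 3) % 4 = 2 then [κ 1 ((n - 3) / 4), τ (κ 1 ((n - 3) / 4))]
      else [aa (κ 1 ((n - 3) / 4)) (τ (κ 1 ((n - 3) / 4))),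
        bb (κ 1 ((n - 3) / 4)) (τ (κ 1 ((n - 3) / 4)))] := ⟨_, rfl⟩
  have hD0 : D 0 = y := by rw [hD]; rfl
  have hD1 : D 1 = [j, t] := by rw [hD]; rfl
  have hD2 : D 2 = [aa j t, bb j t] := by rw [hD]; rfl
  have hDX : ∀ b, (b = 0 ∨ b = 1) → ∀ i, D (X b i) = [κ b i, τ (κ b i)] := by
    intro b hb i
    rw [hD]
    unfold X
    rcases hb with hb | hb
    · subst hb
      have h1 : (3 + 4 * i + 2 * 0 - 3) % 4 = 0 := by omega
      have h2 : (3 + 4 * i + 2 * 0 - 3) / 4 = i := by omega
      dsimp only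
      rw [if_neg (by omega), if_neg (by omega), if_neg (by omega), if_pos h1, h2]
    · subst hb
      have h1 : (3 + 4 * i + 2 * 1 - 3) % 4 = 2 := by omega
      have h2 : (3 + 4 * i + 2 * 1 - 3) / 4 = i := by omega
      dsimp only
      rw [if_neg (by omega), if_neg (by omega), if_neg (by omega), if_neg (by omega),
        if_neg (by omega), if_pos h1, h2]
  have hDZ : ∀ b, (b = 0 ∨ b = 1) → ∀ i, D (Z b i)
      = [aa (κ b i) (τ (κ b i)), bb (κ b i) (τ (κ b i))] := by
    intro b hb i
    rw [hD]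
    unfold Z
    rcases hb with hb | hb
    · subst hb
      have h1 : (4 + 4 * i + 2 * 0 - 3) % 4 = 1 := by omega
      have h2 : (4 + 4 * i + 2 * 0 - 3) / 4 = i := by omega
      dsimp only
      rw [if_neg (by omega), if_neg (by omega), if_neg (by omega), if_neg (by omega), if_pos h1,
        h2]
    · subst hb
      have h1 : (4 + 4 * i + 2 * 1 - 3) % 4 = 3 := by omega
      have h2 : (4 + 4 * i + 2 * 1 - 3) / 4 = i := by omega
      dsimp only
      rw [if_neg (by omega), if_neg (by omega), if_neg (by omega), if_neg (by omega),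
        if_neg (by omega), if_neg (by omega), h2]
  have hDl : ∀ n, 2 ≤ (D n).length := by
    intro n
    rw [hD]
    dsimp only
    split_ifs
    · exact hyl
    all_goals simp
  -- all the chunks are possible
  have hreal : ∀ p ∈ EE N, D p.1 ++ D p.2 ∈ Poss σ l H := by
    intro p hp
    rcases mem_EE.1 hp with (h1 | h1 | h1 | h1 | h1) | ⟨b, hb, i, hi, h1 | h1 | h1 | h1⟩
    · subst h1
      have hk : κ 0 0 = β := by rw [hκ]; rfl
      have h2 := hff4 β (τ β) hβ t
      have h3 : ff β (τ β) = j := by rw [hj, hφ]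
      rw [h3] at h2
      simp only [hDZ 0 (Or.inl rfl), hD1, hk]
      exact h2
    · subst h1
      simp only [hD1, hD0]
      refine ⟨?_, r ++ v₁, ?_, ?_⟩
      · have := congrArg List.length hvy
        rw [hvl] at this
        simp only [List.length_append, List.length_cons, List.length_nil] at this ⊢
        omega
      · rw [List.length_append, hrl]; omega
      · rw [hvy] at hV
        simpa [List.append_assoc] using hV
    · subst h1
      simp only [hD1, hD2]
      exact hff2 j t hjS
    · subst h1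
      simp only [hD0, hD2]
      exact hff3 j t hjS _ y hvy'
    · subst h1
      have hk : κ 1 0 = ff j t := by rw [hκ]; rfl
      simp only [hD2, hDX 1 (Or.inr rfl), hk]
      exact hff4 j t hjS _
    · subst h1
      simp only [hDX b hb, hDZ b hb]
      exact hff2 _ _ (hκS b i)
    · subst h1
      simp only [hD0, hDZ b hb]
      exact hff3 _ _ (hκS b i) _ y hvy'
    · subst h1
      simp only [hD0, hDX b hb]
      exact hyx _ y _ hvy'
    · subst h1
      simp only [hDX b hb, hDZ b hb]
      have h2 := hff4 (κ b i) (τ (κ b i)) (hκS b i) (τ (κ b (nxt N i)))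
      have h3 : ff (κ b i) (τ (κ b i)) = κ b (nxt N i) := by rw [hκn b i hi, hφ]
      rw [h3] at h2
      exact h2
  obtain ⟨G, hG, hP⟩ := realize hst D (EE N) 0 [] (by simpa using hH) hreal
  rw [List.append_nil] at hP
  obtain ⟨f, hf1, hf2⟩ := exists_play hP
  refine ⟨f, hf1, H.length, ((pat 0 (EE N)).map (asg D G)).flatten.length, asg D G, ?_, ?_⟩
  · intro n _
    unfold asg
    split_ifs
    · exact hDl _
    · exact hG _
  · have := (factor_split f 0 _ _ _ hf2).2
    rwa [zero_add] at this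

/-- The game-avoidability index of avoidable patterns is unbounded: there is no `N` such that every
avoidable pattern has game-avoidability index at most `N`. -/
theorem result : ¬ ∃ N : ℕ, ∀ p : List ℕ, Avoidable p → gameIndex p ≤ N := by
  rintro ⟨N, h⟩
  have h1 := h (pat 0 (EE N)) (avoidable_pat (EE N) (EE_ne N) (EE_conn N))
  have h2 : ((N + 1 : ℕ) : ℕ∞) ≤ gameIndex (pat 0 (EE N)) := by
    apply le_sInf
    rintro x ⟨c, -, ⟨σ, hσ⟩, hx⟩
    rw [hx]
    by_contra hlt
    have hcN : c ≤ N := by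
      rw [Nat.cast_le] at hlt
      omega
    obtain ⟨f, hf, i, n, hm⟩ := player2 hcN σ
    exact hσ f hf i n hm
  have h3 := h2.trans h1
  rw [Nat.cast_le] at h3
  omega

end Pool.Agent.Results.MP_e299be_co.IndexUnbounded
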